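import Mathlib
import Pool.Agent.Lib.MP_9a9339_an.Core
import Pool.Agent.Lib.MP_9a9339_an.MeanValue

set_option autoImplicit false

open Set Filter Topology Metric InnerProductSpace Laplacian MeasureTheory
open scoped ContDiff

namespace Pool.Agent.Lib.MP_9a9339_an

open Pool.Agent.Lib.MP_2166fc_an (Sp)

variable {n : ℕ}

/-- The weighted average of `w` on the ball of radius `r` about `x`. -/
noncomputable def avg (w : Sp n → ℝ) (x : Sp n) (r : ℝ) : ℝ := ∫ z, Psi n z * w (x + r • z)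

/-- The source term. -/
noncomputable def src (g : Sp n → ℝ) (x : Sp n) (r : ℝ) : ℝ :=
  ∫ t in (0:ℝ)..r, t * ∫ z, mvPhi n z * g (x + t • z)

/-- The mean value identity at `x` with radius `r` for the equation `-Δ w = g`. -/
def MVI (w g : Sp n → ℝ) (x : Sp n) (r : ℝ) : Prop :=
  (∫ z, Psi n z) * w x = avg w x r + src g x r

/-- The penalised reaction `f(u) - K χ u`. -/
def pen (f : ℝ → ℝ) (K : ℝ) (χ u : Sp n → ℝ) (y : Sp n) : ℝ := f (u y) - K * χ y * u y

/-- Solutions of the penalised problem on the whole space, in the mean value sense. -/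
structure PenSol (f : ℝ → ℝ) (K : ℝ) (χ u : Sp n → ℝ) : Prop where
  cont : Continuous u
  nonneg : ∀ x, 0 ≤ u x
  le_one : ∀ x, u x ≤ 1
  mvi : ∀ x r, 0 < r → MVI u (pen f K χ u) x r

/-- Admissible penalisation weights. -/
structure Weight (χ : Sp n → ℝ) : Prop where
  cont : Continuous χ
  nonneg : ∀ x, 0 ≤ χ x
  le_one : ∀ x, χ x ≤ 1

/-- `v` is a subsolution of the penalised problem: it lies below the solution `w` of the linear
problem `((L+K) - Δ) w = (L+K) v + f(v) - K χ v`. -/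
def PenSub (f : ℝ → ℝ) (L K : ℝ) (χ v : Sp n → ℝ) : Prop :=
  ∀ w : Sp n → ℝ, Continuous w → (∃ C, ∀ x, |w x| ≤ C) →
    (∀ x r, 0 < r → MVI w (fun y => ((L + K) * v y + pen f K χ v y) - (L + K) * w y) x r) →
    ∀ x, v x ≤ w x

/-- The bump `(1 - |y - x₀|^2 / R^2)_+^2 / 2`. -/
noncomputable def bump (n : ℕ) (x₀ : Sp n) (R : ℝ) (y : Sp n) : ℝ :=
  (max (1 - ‖y - x₀‖ ^ 2 / R ^ 2) 0) ^ 2 / 2

end Pool.Agent.Lib.MP_9a9339_an
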