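import Mathlib
import Pool.Agent.Lib.MP_9a9339_an.Ex.Defs
import Pool.Agent.Lib.MP_9a9339_an.Modulus

set_option autoImplicit false

open Set Filter Topology Metric InnerProductSpace Laplacian MeasureTheory
open scoped ContDiff

namespace Pool.Agent.Lib.MP_9a9339_an

open Pool.Agent.Lib.MP_2166fc_an (Sp)

variable {n : ℕ}

lemma mvs_cont {k : Sp n → ℝ} (hk : Continuous k) (x : Sp n) :
    Continuous (fun t : ℝ => ∫ z, mvPhi n z * k (x + t • z)) := by
  rw [continuous_iff_continuousAt]
  intro t
  obtain ⟨C, hC⟩ := (isCompact_closedBall x (|t| + 1)).exists_bound_of_continuousOn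
    hk.continuousOn
  have hQ := mv_Phi_cont (n := n)
  refine continuousAt_of_dominated (bound := fun z => mvPhi n z * C) ?_ ?_ ?_ ?_
  · exact Eventually.of_forall fun s => Continuous.aestronglyMeasurable (by fun_prop)
  · filter_upwards [ball_mem_nhds t one_pos] with s hs
    refine Eventually.of_forall fun z => ?_
    rcases lt_or_ge 1 ‖z‖ with hz | hz
    · rw [mv_Phi_zero hz, zero_mul, zero_mul, norm_zero]
    · rw [norm_mul, Real.norm_of_nonneg (mv_Phi_nonneg z)]
      refine mul_le_mul_of_nonneg_left (hC _ ?_) (mv_Phi_nonneg z)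
      rw [mem_closedBall, dist_eq_norm, add_sub_cancel_left, norm_smul, Real.norm_eq_abs]
      have h2 : |s| ≤ |t| + 1 := by
        rw [mem_ball, Real.dist_eq] at hs
        have h3 := abs_sub_abs_le_abs_sub s t
        linarith
      calc |s| * ‖z‖ ≤ (|t| + 1) * 1 := mul_le_mul h2 hz (norm_nonneg _) (by positivity)
        _ = |t| + 1 := mul_one _
  · refine mv_integrable (by fun_prop) fun z hz => ?_
    rw [mv_Phi_zero hz, zero_mul]
  · refine Eventually.of_forall fun z => ?_
    exact Continuous.continuousAt (by fun_prop)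

/-- X2: the mean value identity for `C^2` functions. -/
theorem mvi_of_contDiff {h : Sp n → ℝ} (hh : ContDiff ℝ 2 h) (x : Sp n) (r : ℝ) :
    MVI h (fun y => - Δ h y) x r := by
  have hlc := mv_cont_lap hh
  have hd : ∀ t, HasDerivAt (fun t : ℝ => ∫ z, Psi n z * h (x + t • z))
      (t * ∫ z, mvPhi n z * Δ h (x + t • z)) t := by
    intro t
    rw [← mv_parts hh x t]
    exact mv_deriv hh x t
  have hc : Continuous fun t : ℝ => t * ∫ z, mvPhi n z * Δ h (x + t • z) :=
    continuous_id.mul (mvs_cont hlc x)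
  have hint := intervalIntegral.integral_eq_sub_of_hasDerivAt (a := 0) (b := r)
    (fun t _ => hd t) (hc.intervalIntegrable 0 r)
  have h0 : (∫ z, Psi n z * h (x + (0:ℝ) • z)) = (∫ z, Psi n z) * h x := by
    simp only [zero_smul, add_zero]
    rw [integral_mul_const]
  simp only [h0] at hint
  have hs : src (fun y => - Δ h y) x r = - ∫ t in (0:ℝ)..r, t * ∫ z, mvPhi n z * Δ h (x + t • z) := by
    unfold src
    rw [← intervalIntegral.integral_neg]
    congr 1
    funext t
    rw [← mul_neg, ← integral_neg]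
    congr 2
    funext z
    ring
  unfold MVI
  rw [hs, hint]
  unfold avg
  ring

/-- X2, local version. -/
theorem mvi_of_contDiffOn {h : Sp n → ℝ} {x : Sp n} {R : ℝ} (hR : 0 < R)
    (hh : ContDiffOn ℝ 2 h (ball x R)) {r : ℝ} (hr : 0 < r) (hrR : r < R / 2) :
    MVI h (fun y => - Δ h y) x r := by
  obtain ⟨g, hg, hgh⟩ := mod_cutoff hR hh
  have hmem : ∀ t ∈ Icc (0:ℝ) r, ∀ z : Sp n, ‖z‖ ≤ 1 → x + t • z ∈ ball x (R / 2) := by
    intro t ht z hz
    rw [mem_ball, dist_eq_norm, add_sub_cancel_left, norm_smul, Real.norm_of_nonneg ht.1]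
    calc t * ‖z‖ ≤ r * 1 := mul_le_mul ht.2 hz (norm_nonneg _) hr.le
      _ < R / 2 := by rw [mul_one]; exact hrR
  have h1 := mvi_of_contDiff hg x r
  unfold MVI at h1 ⊢
  have hx : x ∈ ball x (R / 2) := mem_ball_self (by positivity)
  have e1 : g x = h x := (hgh x hx).eq_of_nhds
  have e2 : avg g x r = avg h x r := by
    unfold avg
    congr 1
    funext z
    rcases lt_or_ge 1 ‖z‖ with hz | hz
    · rw [mv_Psi_zero hz, zero_mul, zero_mul]
    · rw [(hgh _ (hmem r ⟨hr.le, le_rfl⟩ z hz)).eq_of_nhds]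
  have e3 : src (fun y => - Δ g y) x r = src (fun y => - Δ h y) x r := by
    unfold src
    refine intervalIntegral.integral_congr fun t ht => ?_
    rw [uIcc_of_le hr.le] at ht
    simp only
    congr 2
    funext z
    rcases lt_or_ge 1 ‖z‖ with hz | hz
    · rw [mv_Phi_zero hz, zero_mul, zero_mul]
    · rw [(laplacian_congr_nhds (hgh _ (hmem t ht z hz))).eq_of_nhds]
  rw [← e1, h1, e2, e3]

end Pool.Agent.Lib.MP_9a9339_an
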