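import Mathlib
import Pool.Agent.Lib.MP_9a9339_an.Ex.MviSmooth

set_option autoImplicit false

open Set Filter Topology Metric InnerProductSpace Laplacian MeasureTheory
open scoped ContDiff

namespace Pool.Agent.Lib.MP_9a9339_an

open Pool.Agent.Lib.MP_2166fc_an (Sp)

variable {n : ℕ}

lemma maxp_int_psi {w : Sp n → ℝ} (hw : Continuous w) (x : Sp n) (r : ℝ) :
    Integrable fun z => Psi n z * w (x + r • z) := by
  have hP := mv_Psi_cont (n := n)
  refine mv_integrable (by fun_prop) fun z hz => ?_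
  rw [mv_Psi_zero hz, zero_mul]

lemma maxp_int_phi {g : Sp n → ℝ} (hg : Continuous g) (x : Sp n) (t : ℝ) :
    Integrable fun z => mvPhi n z * g (x + t • z) := by
  have hP := mv_Phi_cont (n := n)
  refine mv_integrable (by fun_prop) fun z hz => ?_
  rw [mv_Phi_zero hz, zero_mul]

/-- The mean value identity is linear. -/
theorem MVI.sub {w₁ w₂ g₁ g₂ : Sp n → ℝ} {x : Sp n} {r : ℝ} (hw₁ : Continuous w₁)
    (hw₂ : Continuous w₂) (hg₁ : Continuous g₁) (hg₂ : Continuous g₂)
    (h₁ : MVI w₁ g₁ x r) (h₂ : MVI w₂ g₂ x r) :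
    MVI (fun y => w₁ y - w₂ y) (fun y => g₁ y - g₂ y) x r := by
  have e1 : avg (fun y => w₁ y - w₂ y) x r = avg w₁ x r - avg w₂ x r := by
    unfold avg
    rw [← integral_sub (maxp_int_psi hw₁ x r) (maxp_int_psi hw₂ x r)]
    congr 1
    funext z
    ring
  have e2 : src (fun y => g₁ y - g₂ y) x r = src g₁ x r - src g₂ x r := by
    unfold src
    have i1 : IntervalIntegrable (fun t : ℝ => t * ∫ z, mvPhi n z * g₁ (x + t • z)) volume 0 r :=
      (continuous_id.mul (mvs_cont hg₁ x)).intervalIntegrable _ _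
    have i2 : IntervalIntegrable (fun t : ℝ => t * ∫ z, mvPhi n z * g₂ (x + t • z)) volume 0 r :=
      (continuous_id.mul (mvs_cont hg₂ x)).intervalIntegrable _ _
    rw [← intervalIntegral.integral_sub i1 i2]
    congr 1
    funext t
    rw [← mul_sub, ← integral_sub (maxp_int_phi hg₁ x t) (maxp_int_phi hg₂ x t)]
    congr 2
    funext z
    ring
  unfold MVI at *
  rw [e1, e2, mul_sub, h₁, h₂]
  ring

lemma MVI.neg {w g : Sp n → ℝ} {x : Sp n} {r : ℝ} (h : MVI w g x r) :
    MVI (fun y => - w y) (fun y => - g y) x r := by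
  have e1 : avg (fun y => - w y) x r = - avg w x r := by
    unfold avg
    rw [← integral_neg]
    congr 1
    funext z
    ring
  have e2 : src (fun y => - g y) x r = - src g x r := by
    unfold src
    rw [← intervalIntegral.integral_neg]
    congr 1
    funext t
    rw [← mul_neg, ← integral_neg]
    congr 2
    funext z
    ring
  unfold MVI at *
  rw [e1, e2, mul_neg, h]
  ring

/-- X5: the maximum principle for functions satisfying the mean value identity. -/
theorem not_isLocalMax_of_mvi {w g b : Sp n → ℝ} {x : Sp n} {R : ℝ} (hR : 0 < R)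
    (hw : Continuous w) (hg : Continuous g) (hmvi : ∀ r, 0 < r → r < R → MVI w g x r)
    (hb : ContDiffOn ℝ 2 b (ball x R)) (hlt : ∀ y ∈ ball x R, g y + Δ b y < 0) :
    ¬ IsLocalMax (fun y => w y - b y) x := by
  intro hmax
  obtain ⟨b', hb', hbb⟩ := mod_cutoff hR hb
  have hxx : x ∈ ball x (R / 2) := mem_ball_self (by positivity)
  have hmax' : IsLocalMax (fun y => w y - b' y) x := by
    have h1 : (fun y => w y - b' y) =ᶠ[𝓝 x] fun y => w y - b y := by
      filter_upwards [hbb x hxx] with y hy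
      rw [hy]
    exact hmax.congr h1.symm
  obtain ⟨s, hs, hball⟩ := Metric.eventually_nhds_iff_ball.1 hmax'
  set r : ℝ := min (s / 2) (R / 4) with hr
  have hr0 : 0 < r := lt_min (by positivity) (by positivity)
  have hrs : r < s := (min_le_left _ _).trans_lt (by linarith)
  have hrR : r < R / 2 := (min_le_right _ _).trans_lt (by linarith)
  have hmem : ∀ t ∈ Icc (0:ℝ) r, ∀ z : Sp n, ‖z‖ ≤ 1 → dist (x + t • z) x ≤ r := by
    intro t ht z hz
    rw [dist_eq_norm, add_sub_cancel_left, norm_smul, Real.norm_of_nonneg ht.1]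
    calc t * ‖z‖ ≤ r * 1 := mul_le_mul ht.2 hz (norm_nonneg _) hr0.le
      _ = r := mul_one r
  have hbc : Continuous b' := hb'.continuous
  have hlc := mv_cont_lap hb'
  have hneg : ∀ y ∈ ball x (R / 2), g y - - Δ b' y < 0 := by
    intro y hy
    have h1 := (laplacian_congr_nhds (hbb y hy)).eq_of_nhds
    rw [sub_neg_eq_add, h1]
    exact hlt y (ball_subset_ball (by linarith) hy)
  have hlcn : Continuous fun y => - Δ b' y := hlc.neg
  have h1 := MVI.sub hw hbc hg hlcn (hmvi r hr0 (by linarith)) (mvi_of_contDiff hb' x r)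
  unfold MVI at h1
  -- the average is at most the value at `x`
  have h2 : avg (fun y => w y - b' y) x r ≤ (∫ z, Psi n z) * (w x - b' x) := by
    unfold avg
    rw [← integral_mul_const]
    refine integral_mono (maxp_int_psi (hw.sub hbc) x r) ?_ fun z => ?_
    · have hP := mv_Psi_cont (n := n)
      refine mv_integrable (by fun_prop) fun z hz => ?_
      rw [mv_Psi_zero hz, zero_mul]
    · simp only
      rcases lt_or_ge 1 ‖z‖ with hz | hz
      · rw [mv_Psi_zero hz, zero_mul, zero_mul]
      · refine mul_le_mul_of_nonneg_left ?_ (mv_Psi_nonneg z)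
        exact hball _ (by
          rw [mem_ball]
          exact (hmem r ⟨hr0.le, le_rfl⟩ z hz).trans_lt hrs)
  -- the source term is negative
  have hk : Continuous fun y => g y - - Δ b' y := hg.sub hlc.neg
  have hinner : ∀ t ∈ Icc (0:ℝ) r, ∫ z, mvPhi n z * (g (x + t • z) - - Δ b' (x + t • z)) < 0 := by
    intro t ht
    have h3 : 0 < ∫ z, mvPhi n z * (-(g (x + t • z) - - Δ b' (x + t • z))) := by
      have hP := mv_Phi_cont (n := n)
      refine Continuous.integral_pos_of_hasCompactSupport_nonneg_nonzero (x := 0) ?_ ?_ ?_ ?_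
      · have := hk
        fun_prop
      · refine HasCompactSupport.intro (isCompact_closedBall (0 : Sp n) 1) fun z hz => ?_
        rw [mem_closedBall_zero_iff, not_le] at hz
        rw [mv_Phi_zero hz, zero_mul]
      · intro z
        rcases lt_or_ge 1 ‖z‖ with hz | hz
        · simp only [Pi.zero_apply]
          rw [mv_Phi_zero hz, zero_mul]
        · simp only [Pi.zero_apply]
          refine mul_nonneg (mv_Phi_nonneg z) ?_
          have := hneg (x + t • z) (by
            rw [mem_ball]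
            exact (hmem t ht z hz).trans_lt hrR)
          linarith
      · have h4 : mvPhi n (0 : Sp n) = 1 / 6 := by
          unfold mvPhi
          simp
        have h5 := hneg x hxx
        simp only [smul_zero, add_zero, h4]
        intro h6
        have : g x - - Δ b' x = 0 := by linarith
        linarith
    have h4 : ∫ z, mvPhi n z * (-(g (x + t • z) - - Δ b' (x + t • z))) =
        - ∫ z, mvPhi n z * (g (x + t • z) - - Δ b' (x + t • z)) := by
      rw [← integral_neg]
      congr 1
      funext z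
      ring
    linarith
  have h3 : src (fun y => g y - - Δ b' y) x r < 0 := by
    unfold src
    have h5 : 0 < ∫ t in (0:ℝ)..r, -(t * ∫ z, mvPhi n z * (g (x + t • z) - - Δ b' (x + t • z))) := by
      refine intervalIntegral.intervalIntegral_pos_of_pos_on ?_ (fun t ht => ?_) hr0
      · exact ((continuous_id.mul (mvs_cont hk x)).neg).intervalIntegrable _ _
      · have := hinner t ⟨ht.1.le, ht.2.le⟩
        nlinarith [ht.1]
    rw [intervalIntegral.integral_neg] at h5
    linarith
  linarith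

/-- X5: comparison on the whole space. -/
theorem mvi_comparison {M : ℝ} (hM : 0 < M) {w₁ w₂ F₁ F₂ : Sp n → ℝ} (hw₁ : Continuous w₁)
    (hw₂ : Continuous w₂) (hF₁ : Continuous F₁) (hF₂ : Continuous F₂) {C : ℝ}
    (hb₁ : ∀ x, |w₁ x| ≤ C) (hb₂ : ∀ x, |w₂ x| ≤ C)
    (h₁ : ∀ x r, 0 < r → MVI w₁ (fun y => F₁ y - M * w₁ y) x r)
    (h₂ : ∀ x r, 0 < r → MVI w₂ (fun y => F₂ y - M * w₂ y) x r)
    (hF : ∀ x, F₁ x ≤ F₂ x) (x : Sp n) : w₁ x ≤ w₂ x := by
  by_contra hcon
  push Not at hcon
  set A : ℝ := 2 * n / M + 1 with hA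
  have hA1 : 1 ≤ A := by
    have : (0:ℝ) ≤ 2 * n / M := by positivity
    linarith
  set ε : ℝ := (w₁ x - w₂ x) / (2 * (‖x‖ ^ 2 + A)) with hε
  have hden : 0 < 2 * (‖x‖ ^ 2 + A) := by positivity
  have hε0 : 0 < ε := div_pos (sub_pos.2 hcon) hden
  set b : Sp n → ℝ := fun y => ε * (‖y‖ ^ 2 + A) with hb
  have hbx : b x < w₁ x - w₂ x := by
    have h3 : ε * (2 * (‖x‖ ^ 2 + A)) = w₁ x - w₂ x := div_mul_cancel₀ _ hden.ne'
    have h4 : b x = (w₁ x - w₂ x) / 2 := by
      simp only [hb]
      linarith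
    rw [h4]
    linarith
  have hbc : ContDiff ℝ 2 b := by
    simp only [hb]
    exact contDiff_const.mul ((contDiff_norm_sq ℝ).add contDiff_const)
  -- a global maximum of `w₁ - w₂ - b`
  have hcont : Continuous fun y => w₁ y - w₂ y - b y := (hw₁.sub hw₂).sub hbc.continuous
  obtain ⟨x₁, hx₁⟩ : ∃ x₁, ∀ y, w₁ y - w₂ y - b y ≤ w₁ x₁ - w₂ x₁ - b x₁ := by
    refine hcont.exists_forall_ge' x ?_
    have hK : IsCompact (closedBall (0 : Sp n) (Real.sqrt (2 * C / ε))) := isCompact_closedBall _ _
    filter_upwards [hK.compl_mem_cocompact] with y hy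
    rw [mem_compl_iff, mem_closedBall_zero_iff, not_le] at hy
    have h3 : 2 * C / ε ≤ ‖y‖ ^ 2 := by
      have := Real.lt_sq_of_sqrt_lt hy
      exact this.le
    have h4 : 2 * C ≤ ε * ‖y‖ ^ 2 := by
      rw [div_le_iff₀ hε0] at h3
      linarith
    have h5 : w₁ y - w₂ y ≤ 2 * C := by
      have h6 := (abs_le.1 (hb₁ y)).2
      have h7 := (abs_le.1 (hb₂ y)).1
      linarith
    have h8 : 0 < ε * A := by positivity
    have h9 : b y = ε * ‖y‖ ^ 2 + ε * A := by simp only [hb]; ring
    linarith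
  have hpos : b x₁ < w₁ x₁ - w₂ x₁ := by
    have := hx₁ x
    linarith
  -- near `x₁` the strict inequality persists
  have hopen : ∀ᶠ y in 𝓝 x₁, b y < w₁ y - w₂ y :=
    (hbc.continuous.continuousAt).eventually_lt ((hw₁.sub hw₂).continuousAt) hpos
  obtain ⟨R, hR, hRb⟩ := Metric.eventually_nhds_iff_ball.1 hopen
  have hlap : ∀ y, Δ b y = ε * (2 * n) := by
    intro y
    have h3 := Pool.Agent.Lib.MP_2166fc_an.lap_radial (Ψ := fun s => ε * (s + A))
      (Ψ1 := fun _ => ε) (b := 0) (x0 := (0 : Sp n)) (x := y)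
      (Eventually.of_forall fun q => by
        simpa using ((hasDerivAt_id q).add_const A).const_mul ε)
      (hasDerivAt_const _ _)
    simp only [sub_zero] at h3
    simp only [hb]
    rw [h3]
    ring
  refine not_isLocalMax_of_mvi (w := fun y => w₁ y - w₂ y)
    (g := fun y => (F₁ y - M * w₁ y) - (F₂ y - M * w₂ y)) (b := b) hR (hw₁.sub hw₂)
    ((hF₁.sub (continuous_const.mul hw₁)).sub (hF₂.sub (continuous_const.mul hw₂)))
    (fun r hr _ => MVI.sub hw₁ hw₂ (hF₁.sub (continuous_const.mul hw₁))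
      (hF₂.sub (continuous_const.mul hw₂)) (h₁ x₁ r hr) (h₂ x₁ r hr))
    hbc.contDiffOn (fun y hy => ?_) (Eventually.of_forall hx₁)
  have h3 := hRb y hy
  have h4 := hF y
  rw [hlap y]
  have h5 : ε * (2 * n) < M * b y := by
    simp only [hb]
    have h6 : M * (ε * (‖y‖ ^ 2 + A)) = ε * (M * ‖y‖ ^ 2 + (2 * n + M)) := by
      rw [hA]
      field_simp
    rw [h6]
    apply mul_lt_mul_of_pos_left _ hε0
    have : 0 ≤ M * ‖y‖ ^ 2 := by positivity
    linarith
  have h6 : M * b y < M * (w₁ y - w₂ y) := mul_lt_mul_of_pos_left h3 hM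
  linarith

end Pool.Agent.Lib.MP_9a9339_an
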