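import Mathlib
import Pool.Agent.Lib.MP_9a9339_an.Ex.MaxPrinciple
import Pool.Agent.Lib.MP_9a9339_an.Barrier

set_option autoImplicit false

open Set Filter Topology Metric InnerProductSpace Laplacian MeasureTheory
open scoped ContDiff

namespace Pool.Agent.Lib.MP_9a9339_an

open Pool.Agent.Lib.MP_2166fc_an (Sp)

variable {n : ℕ}

/-- the barrier function is `C^2` away from the centre -/
lemma annulus_contDiffAt (q p : Sp n) (A c : ℝ) (j : ℕ) (hp : p ≠ q) :
    ContDiffAt ℝ 2 (fun y : Sp n => c + (1 - A * (‖y - q‖ ^ 2) ^ (-(j:ℤ)))) p :=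
  contDiffAt_const.add (barrier_contDiffAt q p A j hp)

/-- Laplacian of the shifted barrier. -/
lemma annulus_lap (q p : Sp n) (A c : ℝ) (j : ℕ) (hp : p ≠ q) :
    Δ (fun y : Sp n => (c + (1 - A * (‖y - q‖ ^ 2) ^ (-(j:ℤ))) : ℝ)) p
      = -((2 * j * (2 * j + 2 - n)) * (A * (‖p - q‖ ^ 2) ^ (-(j:ℤ) - 1))) := by
  set k : Sp n → ℝ := fun y : Sp n => 1 - A * (‖y - q‖ ^ 2) ^ (-(j:ℤ)) with hk
  set k0 : Sp n → ℝ := fun _ : Sp n => c with hk0
  have h1 : (fun y : Sp n => (c + (1 - A * (‖y - q‖ ^ 2) ^ (-(j:ℤ))) : ℝ)) = k0 + k := by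
    ext y; rfl
  have hk0c : ContDiffAt ℝ 2 k0 p := contDiffAt_const
  have hkc : ContDiffAt ℝ 2 k p := barrier_contDiffAt q p A j hp
  have h2 : Δ (k0 + k) p = Δ k0 p + Δ k p := hk0c.laplacian_add hkc
  have h3 : Δ k0 p = 0 := by
    rw [hk0, laplacian_const]; rfl
  rw [h1, h2, h3, zero_add, hk, barrier_lap q p A j hp]

/-- X15: barrier in the annulus around an exterior ball. -/
theorem pen_barrier (n : ℕ) {f : ℝ → ℝ} {c L ρ : ℝ} (hf : React f c L) (hfc : Continuous f)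
    (hρ : 0 < ρ) :
    ∃ C : ℝ, 0 < C ∧ ∀ (χ : Sp n → ℝ) (K : ℝ) (u : Sp n → ℝ) (q : Sp n) (s ε : ℝ),
      Weight χ → 0 ≤ K → PenSol f K χ u → ρ / 2 ≤ s → s ≤ ρ → 0 ≤ ε →
      (∀ x ∈ closedBall q s, u x ≤ ε) →
      ∀ x, s ≤ dist x q → dist x q ≤ 2 * ρ →
        u x ≤ ε + C * ((s ^ 2)⁻¹ ^ (n + 1) - (dist x q ^ 2)⁻¹ ^ (n + 1)) := by
  have hL := hf.L_pos
  set j : ℕ := n + 1 with hj
  set D : ℝ := 2 * j * (2 * j + 2 - n) with hD
  have hDpos : 0 < D := by
    have h1 : (j : ℝ) = n + 1 := by rw [hj]; push_cast; ring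
    have h2 : (0:ℝ) ≤ n := Nat.cast_nonneg n
    rw [hD, h1]
    have : (0:ℝ) < 2 * (n + 1) + 2 - n := by linarith
    positivity
  set g : ℝ := (ρ ^ 2)⁻¹ ^ j - ((2 * ρ) ^ 2)⁻¹ ^ j with hg
  have hgpos : 0 < g := by
    rw [hg, sub_pos]
    apply pow_lt_pow_left₀ _ (by positivity) (by omega)
    apply inv_strictAnti₀ (by positivity)
    nlinarith
  set C : ℝ := (L + 1) * ((2 * ρ) ^ 2) ^ (j + 1) / D + g⁻¹ with hC
  have hC1 : 0 < (L + 1) * ((2 * ρ) ^ 2) ^ (j + 1) / D := by positivity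
  have hC2 : 0 < g⁻¹ := inv_pos.2 hgpos
  have hC0 : 0 < C := by positivity
  refine ⟨C, hC0, ?_⟩
  intro χ K u q s ε hχ hK hu hs1 hs2 hε hsm x hx1 hx2
  have hs0 : 0 < s := by linarith
  have hzp : ∀ a : ℝ, (a ^ 2)⁻¹ ^ j = (a ^ 2) ^ (-(j:ℤ)) := by
    intro a
    rw [inv_pow, zpow_neg, zpow_natCast]
  -- the barrier
  set c₀ : ℝ := ε + C * (s ^ 2)⁻¹ ^ j - 1 with hc₀
  set b : Sp n → ℝ := fun y => c₀ + (1 - C * (‖y - q‖ ^ 2) ^ (-(j:ℤ))) with hb
  have hbx : ∀ y, b y = ε + C * ((s ^ 2)⁻¹ ^ j - (dist y q ^ 2)⁻¹ ^ j) := by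
    intro y
    simp only [hb, hc₀]
    rw [hzp (dist y q), dist_eq_norm]
    ring
  rw [← hbx]
  -- the annulus
  set An : Set (Sp n) := closedBall q (2 * ρ) \ ball q s with hAn
  have hAnc : IsCompact An := (isCompact_closedBall q (2 * ρ)).diff isOpen_ball
  have hxAn : x ∈ An := by
    refine ⟨mem_closedBall.mpr hx2, ?_⟩
    simp only [mem_ball, not_lt]
    exact hx1
  have hneq : ∀ p ∈ An, p ≠ q := by
    intro p hp h
    rw [h] at hp
    exact hp.2 (mem_ball_self hs0)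
  have hbcont : ContinuousOn b An := fun p hp =>
    (annulus_contDiffAt q p C c₀ j (hneq p hp)).continuousAt.continuousWithinAt
  have hGcont : ContinuousOn (fun y => u y - b y) An := hu.cont.continuousOn.sub hbcont
  obtain ⟨p, hpAn, hpmax⟩ := hAnc.exists_isMaxOn ⟨x, hxAn⟩ hGcont
  have hps : s ≤ dist p q := by
    have := hpAn.2
    simpa only [mem_ball, not_lt] using this
  have hp2 : dist p q ≤ 2 * ρ := mem_closedBall.mp hpAn.1
  suffices hclaim : u p - b p ≤ 0 by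
    have h1 : u x - b x ≤ u p - b p := hpmax hxAn
    linarith
  by_contra hGp
  rw [not_le] at hGp
  have hps' : s < dist p q := by
    rcases lt_or_eq_of_le hps with h | h
    · exact h
    · exfalso
      have h1 := hbx p
      rw [← h, sub_self, mul_zero, add_zero] at h1
      have h2 := hsm p (mem_closedBall.mpr h.ge)
      linarith
  have hp2' : dist p q < 2 * ρ := by
    rcases lt_or_eq_of_le hp2 with h | h
    · exact h
    · exfalso
      have h1 := hbx p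
      rw [h] at h1
      have h2 : (ρ ^ 2)⁻¹ ^ j ≤ (s ^ 2)⁻¹ ^ j := by
        apply pow_le_pow_left₀ (by positivity)
        apply inv_anti₀ (by positivity)
        exact pow_le_pow_left₀ hs0.le hs2 2
      have h3 : 1 ≤ C * g := by
        rw [hC, add_mul, inv_mul_cancel₀ hgpos.ne']
        have : 0 < (L + 1) * ((2 * ρ) ^ 2) ^ (j + 1) / D * g := by positivity
        linarith
      have h4 : C * g ≤ C * ((s ^ 2)⁻¹ ^ j - ((2 * ρ) ^ 2)⁻¹ ^ j) := by
        apply mul_le_mul_of_nonneg_left _ hC0.le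
        rw [hg]; linarith
      have h5 := hu.le_one p
      linarith
  have hopen : IsOpen {z : Sp n | s < dist z q ∧ dist z q < 2 * ρ} := by
    apply IsOpen.inter
    · exact isOpen_lt continuous_const (continuous_id.dist continuous_const)
    · exact isOpen_lt (continuous_id.dist continuous_const) continuous_const
  obtain ⟨R, hR, hRsub⟩ := Metric.isOpen_iff.1 hopen p ⟨hps', hp2'⟩
  have hlm : IsLocalMax (fun y => u y - b y) p := by
    filter_upwards [ball_mem_nhds p hR] with z hz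
    have hz' := hRsub hz
    apply hpmax
    refine ⟨mem_closedBall.mpr hz'.2.le, ?_⟩
    simp only [mem_ball, not_lt]
    exact hz'.1.le
  have hneq' : ∀ y ∈ ball p R, y ≠ q := by
    intro y hy h
    have := (hRsub hy).1
    rw [h, dist_self] at this
    linarith
  have hpc : Continuous (pen f K χ u) := by
    have h1 := hu.cont
    have h2 := hχ.cont
    unfold pen
    fun_prop
  refine not_isLocalMax_of_mvi hR hu.cont hpc (fun r hr _ => hu.mvi p r hr)
    (fun y hy => (annulus_contDiffAt q y C c₀ j (hneq' y hy)).contDiffWithinAt) ?_ hlm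
  intro y hy
  have hyq := hneq' y hy
  have hy' := hRsub hy
  have hlap : Δ b y = -(D * (C * (‖y - q‖ ^ 2) ^ (-(j:ℤ) - 1))) :=
    annulus_lap q y C c₀ j hyq
  rw [hlap]
  have hyq0 : 0 < ‖y - q‖ ^ 2 := by
    have : 0 < ‖y - q‖ := norm_pos_iff.mpr (sub_ne_zero.mpr hyq)
    positivity
  have h1 : ‖y - q‖ ^ 2 ≤ (2 * ρ) ^ 2 := by
    have := hy'.2
    rw [dist_eq_norm] at this
    exact pow_le_pow_left₀ (norm_nonneg _) this.le 2
  have h2 : (‖y - q‖ ^ 2) ^ (-(j:ℤ) - 1) = ((‖y - q‖ ^ 2) ^ (j + 1))⁻¹ := by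
    have h0 : -(j:ℤ) - 1 = -((j + 1 : ℕ) : ℤ) := by push_cast; ring
    rw [h0, zpow_neg, zpow_natCast]
  have h3 : (((2 * ρ) ^ 2) ^ (j + 1))⁻¹ ≤ (‖y - q‖ ^ 2) ^ (-(j:ℤ) - 1) := by
    rw [h2]
    apply inv_anti₀ (by positivity)
    exact pow_le_pow_left₀ hyq0.le h1 _
  have h4 : L + 1 ≤ D * (C * (‖y - q‖ ^ 2) ^ (-(j:ℤ) - 1)) := by
    have h5 : D * (((L + 1) * ((2 * ρ) ^ 2) ^ (j + 1) / D) * (((2 * ρ) ^ 2) ^ (j + 1))⁻¹)
        = L + 1 := by
      have : ((2 * ρ) ^ 2) ^ (j + 1) ≠ 0 := by positivity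
      field_simp
    rw [← h5]
    apply mul_le_mul_of_nonneg_left _ hDpos.le
    apply mul_le_mul _ h3 (by positivity) hC0.le
    rw [hC]
    linarith
  have h6 : pen f K χ u y ≤ L := by
    have h7 := hf.upper1 (u y) ⟨hu.nonneg y, hu.le_one y⟩
    have h8 : 0 ≤ K * χ y * u y := mul_nonneg (mul_nonneg hK (hχ.nonneg y)) (hu.nonneg y)
    have h9 := mul_nonneg hL.le (hu.nonneg y)
    unfold pen
    nlinarith
  linarith

end Pool.Agent.Lib.MP_9a9339_an
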