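import Mathlib
import Pool.Agent.Lib.MP_9a9339_an.Ex.MaxPrinciple

set_option autoImplicit false

open Set Filter Topology Metric InnerProductSpace Laplacian MeasureTheory
open scoped ContDiff

namespace Pool.Agent.Lib.MP_9a9339_an

open Pool.Agent.Lib.MP_2166fc_an (Sp)

variable {n : ℕ}

lemma exterior_pen_cont {f : ℝ → ℝ} (hfc : Continuous f) {χ u : Sp n → ℝ} (hχ : Continuous χ)
    (hu : Continuous u) (K : ℝ) : Continuous (pen f K χ u) := by
  unfold pen
  fun_prop

/-- X14: penalised solutions are small inside exterior balls. -/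
theorem pen_small {f : ℝ → ℝ} {c L : ℝ} (hf : React f c L) (hfc : Continuous f)
    {χ : Sp n → ℝ} (hχ : Weight χ) {q : Sp n} {ρ : ℝ} (hρ : 0 < ρ)
    (hpos : ∀ y ∈ ball q ρ, 0 < χ y) {s ε : ℝ} (hs : s < ρ) (hε : 0 < ε) :
    ∃ K₀ : ℝ, ∀ K, K₀ ≤ K → ∀ u : Sp n → ℝ, PenSol f K χ u → ∀ x ∈ closedBall q s, u x ≤ ε := by
  have hL := hf.L_pos
  set s₀ : ℝ := max s 0 with hs₀
  have hs₀0 : 0 ≤ s₀ := le_max_right _ _
  have hs₀ρ : s₀ < ρ := max_lt hs hρ
  set s' : ℝ := (s₀ + ρ) / 2 with hs'
  have hs'0 : 0 < s' := by rw [hs']; linarith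
  have hs₀s' : s₀ < s' := by rw [hs']; linarith
  have hs'ρ : s' < ρ := by rw [hs']; linarith
  -- lower bound of the weight
  obtain ⟨y₀, hy₀, hmin⟩ := (isCompact_closedBall q s').exists_isMinOn
    ⟨q, mem_closedBall_self hs'0.le⟩ hχ.cont.continuousOn
  set m : ℝ := χ y₀ with hm
  have hm0 : 0 < m := hpos y₀ (closedBall_subset_ball hs'ρ hy₀)
  -- the exponent
  have hτ : s₀ ^ 2 / s' ^ 2 < 1 := by
    rw [div_lt_one (by positivity)]
    nlinarith
  obtain ⟨j, hj⟩ := exists_pow_lt_of_lt_one (show 0 < ε / 2 by positivity) hτ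
  set b : Sp n → ℝ := fun y => ε / 2 + (‖y - q‖ ^ 2 / s' ^ 2) ^ j with hb
  have hbC : ContDiff ℝ 2 b := by
    simp only [hb]
    exact contDiff_const.add ((((contDiff_norm_sq ℝ).comp
      (contDiff_id.sub contDiff_const)).div_const _).pow j)
  have hlc := mv_cont_lap hbC
  obtain ⟨Cb, hCb⟩ := (isCompact_closedBall q ρ).exists_bound_of_continuousOn hlc.continuousOn
  have hCb0 : 0 ≤ Cb := (norm_nonneg _).trans (hCb q (mem_closedBall_self hρ.le))
  refine ⟨2 * (L + Cb + 1) / (m * ε), fun K hK u hu x hx => ?_⟩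
  have hmε : 0 < m * ε := mul_pos hm0 hε
  have hK0 : 0 < K := lt_of_lt_of_le (by positivity) hK
  have hKm : L + Cb < K * m * (ε / 2) := by
    rw [div_le_iff₀ hmε] at hK
    linarith
  -- the claim
  have key : ∀ y ∈ closedBall q s', u y ≤ b y := by
    by_contra hcon
    push Not at hcon
    obtain ⟨y₁, hy₁, hlt₁⟩ := hcon
    have hcont : Continuous fun y => u y - b y := hu.cont.sub hbC.continuous
    obtain ⟨z, hz, hmax⟩ := (isCompact_closedBall q s').exists_isMaxOn ⟨y₁, hy₁⟩
      hcont.continuousOn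
    have hz1 : b z < u z := by
      have := hmax hy₁
      simp only [mem_ofPred_eq] at this
      linarith
    have hzin : z ∈ ball q s' := by
      rw [mem_ball]
      refine lt_of_le_of_ne hz fun heq => ?_
      have h1 : b z = ε / 2 + 1 := by
        simp only [hb]
        rw [dist_eq_norm] at heq
        rw [heq, div_self (by positivity), one_pow]
      have h2 := hu.le_one z
      linarith
    have hloc : IsLocalMax (fun y => u y - b y) z := by
      filter_upwards [isOpen_ball.mem_nhds hzin] with y hy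
      exact hmax (ball_subset_closedBall hy)
    have hopen : ∀ᶠ y in 𝓝 z, b y < u y ∧ y ∈ ball q s' :=
      (hbC.continuous.continuousAt.eventually_lt hu.cont.continuousAt hz1).and
        (isOpen_ball.mem_nhds hzin)
    obtain ⟨R, hR, hRb⟩ := Metric.eventually_nhds_iff_ball.1 hopen
    refine not_isLocalMax_of_mvi hR hu.cont (exterior_pen_cont hfc hχ.cont hu.cont K)
      (fun r hr _ => hu.mvi z r hr) hbC.contDiffOn (fun y hy => ?_) hloc
    obtain ⟨h1, h2⟩ := hRb y hy
    have h3 : ε / 2 ≤ b y := by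
      simp only [hb]
      have : 0 ≤ (‖y - q‖ ^ 2 / s' ^ 2) ^ j := by positivity
      linarith
    have h4 : m ≤ χ y := hmin (ball_subset_closedBall h2)
    have h5 : Δ b y ≤ Cb := (le_abs_self _).trans
      (hCb y (closedBall_subset_closedBall hs'ρ.le (ball_subset_closedBall h2)))
    have h6 : f (u y) ≤ L :=
      (hf.upper0 (u y) ⟨hu.nonneg y, hu.le_one y⟩).trans
        (mul_le_of_le_one_right hL.le (hu.le_one y))
    have h7 : K * m * (ε / 2) ≤ K * χ y * u y := by
      apply mul_le_mul (mul_le_mul_of_nonneg_left h4 hK0.le) (by linarith) (by positivity)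
      exact mul_nonneg hK0.le (hχ.nonneg y)
    unfold pen
    linarith
  have hxs : ‖x - q‖ ≤ s₀ := by
    rw [mem_closedBall, dist_eq_norm] at hx
    exact hx.trans (le_max_left _ _)
  have hx' : x ∈ closedBall q s' := by
    rw [mem_closedBall, dist_eq_norm]
    linarith
  refine (key x hx').trans ?_
  simp only [hb]
  have h1 : (‖x - q‖ ^ 2 / s' ^ 2) ^ j ≤ (s₀ ^ 2 / s' ^ 2) ^ j := by
    apply pow_le_pow_left₀ (by positivity)
    apply div_le_div_of_nonneg_right _ (by positivity)
    exact pow_le_pow_left₀ (norm_nonneg _) hxs 2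
  linarith

end Pool.Agent.Lib.MP_9a9339_an
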