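import Mathlib
import Pool.Agent.Lib.MP_9a9339_an.Ex.Exterior
import Pool.Agent.Lib.MP_9a9339_an.Ex.Annulus

set_option autoImplicit false

open Set Filter Topology Metric InnerProductSpace Laplacian MeasureTheory
open scoped ContDiff

namespace Pool.Agent.Lib.MP_9a9339_an

open Pool.Agent.Lib.MP_2166fc_an (Sp)

variable {n : ℕ}

/-- X16: boundary behaviour of the limit. -/
theorem limit_boundary {f : ℝ → ℝ} {c L ρ : ℝ} (hf : React f c L) (hfc : Continuous f)
    {χ : Sp n → ℝ} (hχ : Weight χ) {U : ℕ → Sp n → ℝ} (hU : ∀ k : ℕ, PenSol f k χ (U k))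
    {u : Sp n → ℝ} (hu0 : ∀ x, 0 ≤ u x) (hu : ∀ k x, u x ≤ U k x) {p q : Sp n} (hρ : 0 < ρ)
    (hpq : dist p q = ρ) (hpos : ∀ y ∈ ball q ρ, 0 < χ y) : u p = 0 ∧ ContinuousAt u p := by
  obtain ⟨C, hC, hbar⟩ := pen_barrier n hf hfc hρ
  -- solutions are small in smaller balls
  have small : ∀ s ε : ℝ, s < ρ → 0 < ε → ∃ k : ℕ, ∀ x ∈ closedBall q s, U k x ≤ ε := by
    intro s ε hs hε
    obtain ⟨K₀, hK⟩ := pen_small hf hfc hχ hρ hpos hs hε
    obtain ⟨k, hk⟩ := exists_nat_ge K₀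
    exact ⟨k, hK k hk (U k) (hU k)⟩
  have inner : ∀ x ∈ ball q ρ, u x ≤ 0 := by
    intro x hx
    apply le_of_forall_pos_le_add
    intro ε hε
    obtain ⟨k, hk⟩ := small (dist x q) ε hx hε
    rw [zero_add]
    exact (hu k x).trans (hk x (mem_closedBall.2 le_rfl))
  have outer : ∀ x, ρ ≤ dist x q → dist x q ≤ 2 * ρ →
      u x ≤ C * ((ρ ^ 2)⁻¹ ^ (n + 1) - (dist x q ^ 2)⁻¹ ^ (n + 1)) := by
    intro x hx1 hx2
    have h1 : ∀ s ∈ Ico (ρ / 2) ρ,
        u x ≤ C * ((s ^ 2)⁻¹ ^ (n + 1) - (dist x q ^ 2)⁻¹ ^ (n + 1)) := by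
      intro s hs
      apply le_of_forall_pos_le_add
      intro ε hε
      obtain ⟨k, hk⟩ := small s ε hs.2 hε
      have := hbar χ k (U k) q s ε hχ (Nat.cast_nonneg k) (hU k) hs.1 hs.2.le hε.le hk x
        (hs.2.le.trans hx1) hx2
      linarith [hu k x]
    have hne : ρ ^ 2 ≠ 0 := by positivity
    have h2 : Tendsto (fun s : ℝ => C * ((s ^ 2)⁻¹ ^ (n + 1) - (dist x q ^ 2)⁻¹ ^ (n + 1)))
        (𝓝[<] ρ) (𝓝 (C * ((ρ ^ 2)⁻¹ ^ (n + 1) - (dist x q ^ 2)⁻¹ ^ (n + 1)))) := by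
      apply Tendsto.mono_left _ nhdsWithin_le_nhds
      apply ContinuousAt.tendsto
      apply ContinuousAt.mul continuousAt_const
      apply ContinuousAt.sub _ continuousAt_const
      exact ((continuousAt_id.pow 2).inv₀ hne).pow (n + 1)
    refine ge_of_tendsto h2 ?_
    filter_upwards [Ico_mem_nhdsLT (show ρ / 2 < ρ by linarith)] with s hs
    exact h1 s hs
  -- the comparison function
  set b : Sp n → ℝ := fun x =>
    max (C * ((ρ ^ 2)⁻¹ ^ (n + 1) - (dist x q ^ 2)⁻¹ ^ (n + 1))) 0 with hb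
  have hbp : b p = 0 := by
    simp only [hb, hpq, sub_self, mul_zero, max_self]
  have hle : ∀ x, dist x q ≤ 2 * ρ → u x ≤ b x := by
    intro x hx
    rcases lt_or_ge (dist x q) ρ with h | h
    · exact (inner x h).trans (le_max_right _ _)
    · exact (outer x h hx).trans (le_max_left _ _)
  have hup : u p = 0 := by
    apply le_antisymm _ (hu0 p)
    rw [← hbp]
    exact hle p (by rw [hpq]; linarith)
  refine ⟨hup, ?_⟩
  have hbc : ContinuousAt b p := by
    have hd : ContinuousAt (fun x : Sp n => dist x q) p := by fun_prop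
    have hne : dist p q ^ 2 ≠ 0 := by
      rw [hpq]
      positivity
    have h1 : ContinuousAt (fun x : Sp n =>
        C * ((ρ ^ 2)⁻¹ ^ (n + 1) - (dist x q ^ 2)⁻¹ ^ (n + 1))) p :=
      continuousAt_const.mul (continuousAt_const.sub (((hd.pow 2).inv₀ hne).pow (n + 1)))
    exact h1.sup continuousAt_const
  have hev : ∀ᶠ x in 𝓝 p, u x ≤ b x := by
    have hc : Continuous fun x : Sp n => dist x q := by fun_prop
    have := hc.continuousAt.eventually_lt (continuousAt_const (y := 2 * ρ))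
      (show dist p q < 2 * ρ by rw [hpq]; linarith)
    filter_upwards [this] with x hx
    exact hle x hx.le
  have ht : Tendsto u (𝓝 p) (𝓝 0) := by
    refine tendsto_of_tendsto_of_tendsto_of_le_of_le' tendsto_const_nhds ?_
      (Eventually.of_forall hu0) hev
    rw [← hbp]
    exact hbc.tendsto
  rw [ContinuousAt, hup]
  exact ht

end Pool.Agent.Lib.MP_9a9339_an
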