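import Mathlib
import Pool.Agent.Lib.MP_9a9339_an.Ex.MviSmooth

set_option autoImplicit false

open Set Filter Topology Metric InnerProductSpace Laplacian MeasureTheory
open scoped ContDiff

namespace Pool.Agent.Lib.MP_9a9339_an

open Pool.Agent.Lib.MP_2166fc_an (Sp)

variable {n : ℕ}

lemma equation_cont {g : Sp n → ℝ} (hg : Continuous g) (x : Sp n) :
    Continuous fun t : ℝ => ∫ z, mvPhi n z * g (x + t • z) := by
  have hP := mv_Phi_cont (n := n)
  have h1 : (fun t : ℝ => ∫ z, mvPhi n z * g (x + t • z)) =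
      fun t : ℝ => ∫ z in closedBall (0 : Sp n) 1, mvPhi n z * g (x + t • z) := by
    funext t
    symm
    refine setIntegral_eq_integral_of_forall_compl_eq_zero fun z hz => ?_
    rw [mem_closedBall_zero_iff, not_le] at hz
    rw [mv_Phi_zero hz, zero_mul]
  rw [h1]
  refine continuous_parametric_integral_of_continuous ?_ (isCompact_closedBall _ _)
  unfold Function.uncurry
  fun_prop

lemma equation_congr {g g₁ : Sp n → ℝ} {x : Sp n} {r : ℝ} (hr : 0 ≤ r)
    (h : ∀ y ∈ closedBall x r, g y = g₁ y) : src g x r = src g₁ x r := by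
  unfold src
  refine intervalIntegral.integral_congr fun t ht => ?_
  rw [uIcc_of_le hr] at ht
  refine congrArg (fun a => t * a) ?_
  refine integral_congr_ae (Eventually.of_forall fun z => ?_)
  simp only
  rcases lt_or_ge 1 ‖z‖ with hz | hz
  · rw [mv_Phi_zero hz, zero_mul, zero_mul]
  · rw [h]
    rw [mem_closedBall, dist_eq_norm, add_sub_cancel_left, norm_smul, Real.norm_eq_abs,
      abs_of_nonneg ht.1]
    calc t * ‖z‖ ≤ r * 1 := mul_le_mul ht.2 hz (norm_nonneg _) hr
      _ = r := mul_one r

lemma equation_avg_congr {g g₁ : Sp n → ℝ} {x : Sp n} {r : ℝ} (hr : 0 ≤ r)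
    (h : ∀ y ∈ closedBall x r, g y = g₁ y) : avg g x r = avg g₁ x r := by
  unfold avg
  refine integral_congr_ae (Eventually.of_forall fun z => ?_)
  simp only
  rcases lt_or_ge 1 ‖z‖ with hz | hz
  · rw [mv_Psi_zero hz, zero_mul, zero_mul]
  · rw [h]
    rw [mem_closedBall, dist_eq_norm, add_sub_cancel_left, norm_smul, Real.norm_eq_abs,
      abs_of_nonneg hr]
    calc r * ‖z‖ ≤ r * 1 := mul_le_mul_of_nonneg_left hz hr
      _ = r := mul_one r

lemma equation_lt {g h : Sp n → ℝ} (hg : Continuous g) (hh : Continuous h) {x : Sp n} {r : ℝ}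
    (hr : 0 < r) (hlt : ∀ y ∈ closedBall x r, h y < g y) : src h x r < src g x r := by
  have key : ∀ t ∈ Icc (0 : ℝ) r, ∫ z, mvPhi n z * h (x + t • z) <
      ∫ z, mvPhi n z * g (x + t • z) := by
    intro t ht
    have hP := mv_Phi_cont (n := n)
    have hmem : ∀ z : Sp n, ‖z‖ ≤ 1 → x + t • z ∈ closedBall x r := by
      intro z hz
      rw [mem_closedBall, dist_eq_norm, add_sub_cancel_left, norm_smul, Real.norm_eq_abs,
        abs_of_nonneg ht.1]
      calc t * ‖z‖ ≤ r * 1 := mul_le_mul ht.2 hz (norm_nonneg _) hr.le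
        _ = r := mul_one r
    have h1 : Integrable fun z => mvPhi n z * h (x + t • z) :=
      mv_integrable (by fun_prop) fun z hz => by rw [mv_Phi_zero hz, zero_mul]
    have h2 : Integrable fun z => mvPhi n z * g (x + t • z) :=
      mv_integrable (by fun_prop) fun z hz => by rw [mv_Phi_zero hz, zero_mul]
    rw [← sub_pos, ← integral_sub h2 h1]
    have h3 : Continuous fun z => mvPhi n z * g (x + t • z) - mvPhi n z * h (x + t • z) := by
      fun_prop
    refine h3.integral_pos_of_hasCompactSupport_nonneg_nonzero (x := 0) ?_ ?_ ?_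
    · refine HasCompactSupport.intro (isCompact_closedBall (0 : Sp n) 1) fun z hz => ?_
      rw [mem_closedBall_zero_iff, not_le] at hz
      rw [mv_Phi_zero hz, zero_mul, zero_mul, sub_zero]
    · intro z
      simp only [Pi.zero_apply]
      rcases lt_or_ge 1 ‖z‖ with hz | hz
      · rw [mv_Phi_zero hz, zero_mul, zero_mul, sub_zero]
      · rw [← mul_sub]
        exact mul_nonneg (mv_Phi_nonneg z) (sub_nonneg.2 (hlt _ (hmem z hz)).le)
    · rw [← mul_sub]
      have h4 := hlt _ (hmem 0 (by simp))
      have h5 : mvPhi n (0 : Sp n) ≠ 0 := by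
        unfold mvPhi
        rw [norm_zero, max_eq_left (by norm_num)]
        norm_num
      exact mul_ne_zero h5 (sub_pos.2 h4).ne'
  have c1 := equation_cont hh x
  have c2 := equation_cont hg x
  unfold src
  refine intervalIntegral.integral_lt_integral_of_continuousOn_of_le_of_exists_lt hr
    (Continuous.continuousOn (by fun_prop)) (Continuous.continuousOn (by fun_prop)) ?_ ?_
  · intro t ht
    exact mul_le_mul_of_nonneg_left (key t ⟨ht.1.le, ht.2⟩).le ht.1.le
  · exact ⟨r, ⟨hr.le, le_rfl⟩, mul_lt_mul_of_pos_left (key r ⟨hr.le, le_rfl⟩) hr⟩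

/-- X11: a `C^2` function satisfying the mean value identity with continuous source satisfies
the equation. -/
theorem laplacian_of_mvi {Ω : Set (Sp n)} (hΩ : IsOpen Ω) {u g : Sp n → ℝ}
    (hu : ContDiffOn ℝ 2 u Ω) (hg : ContinuousOn g Ω)
    (hmvi : ∀ x ∈ Ω, ∀ r, 0 < r → closedBall x r ⊆ Ω → MVI u g x r) :
    ∀ x ∈ Ω, Δ u x = - g x := by
  intro x hx
  obtain ⟨R, hR, hRΩ⟩ := Metric.isOpen_iff.1 hΩ x hx
  obtain ⟨v, hv, hvu⟩ := mod_cutoff hR (hu.mono hRΩ)
  -- the continuous cut-off of `g`
  let χ : ContDiffBump x := ⟨R / 2, 3 * R / 4, by positivity, by linarith⟩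
  have hg₁ : Continuous fun y => χ y * g y := by
    rw [continuous_iff_continuousAt]
    intro y
    by_cases hy : y ∈ ball x R
    · exact χ.continuous.continuousAt.mul (hg.continuousAt (hΩ.mem_nhds (hRΩ hy)))
    · have h1 : y ∉ tsupport χ := by
        rw [χ.tsupport_eq]
        intro hy'
        apply hy
        rw [mem_ball]
        have h2 : dist y x ≤ 3 * R / 4 := hy'
        linarith
      have h2 : (fun y => χ y * g y) =ᶠ[𝓝 y] fun _ => 0 := by
        filter_upwards [notMem_tsupport_iff_eventuallyEq.1 h1] with z hz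
        rw [hz]
        simp
      exact continuousAt_const.congr h2.symm
  have hχ : ∀ y ∈ ball x (R / 2), χ y * g y = g y := fun y hy => by
    rw [χ.one_of_mem_closedBall (ball_subset_closedBall hy), one_mul]
  have hlap : Continuous fun y => - Δ v y := (mv_cont_lap hv).neg
  have hxR : x ∈ ball x (R / 2) := mem_ball_self (by positivity)
  have hΔ : Δ v x = Δ u x := by
    exact (laplacian_congr_nhds (hvu x hxR)).eq_of_nhds
  -- equality of the sources
  have hsrc : ∀ r, 0 < r → r < R / 2 → src (fun y => χ y * g y) x r = src (fun y => - Δ v y) x r := by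
    intro r hr hrR
    have hb : closedBall x r ⊆ ball x (R / 2) := closedBall_subset_ball hrR
    have hbΩ : closedBall x r ⊆ Ω := hb.trans ((ball_subset_ball (by linarith)).trans hRΩ)
    have h1 := hmvi x hx r hr hbΩ
    have h2 := mvi_of_contDiff hv x r
    unfold MVI at h1 h2
    have h3 : avg v x r = avg u x r :=
      equation_avg_congr hr.le fun y hy => (hvu y (hb hy)).eq_of_nhds
    have h4 : src (fun y => χ y * g y) x r = src g x r :=
      equation_congr hr.le fun y hy => hχ y (hb hy)
    have h5 : v x = u x := (hvu x hxR).eq_of_nhds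
    rw [h3, h5] at h2
    rw [h4]
    linarith
  have hclose : ∀ {a b : Sp n → ℝ}, Continuous a → Continuous b → a x < b x →
      ∃ r, 0 < r ∧ r < R / 2 ∧ ∀ y ∈ closedBall x r, a y < b y := by
    intro a b ha hb hab
    obtain ⟨s, hs, hsx⟩ := Metric.isOpen_iff.1 (isOpen_lt ha hb) x hab
    refine ⟨min (s / 2) (R / 4), by positivity, ?_, ?_⟩
    · exact (min_le_right _ _).trans_lt (by linarith)
    · intro y hy
      apply hsx
      rw [mem_closedBall] at hy
      rw [mem_ball]
      exact (hy.trans (min_le_left _ _)).trans_lt (by linarith)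
  have hgx : χ x * g x = g x := hχ x hxR
  rcases lt_trichotomy (- Δ v x) (χ x * g x) with h | h | h
  · exfalso
    obtain ⟨r, hr, hrR, hlt⟩ := hclose hlap hg₁ h
    exact absurd (hsrc r hr hrR) (equation_lt hg₁ hlap hr hlt).ne'
  · rw [hgx, hΔ] at h
    linarith
  · exfalso
    obtain ⟨r, hr, hrR, hlt⟩ := hclose hg₁ hlap h
    exact absurd (hsrc r hr hrR) (equation_lt hlap hg₁ hr hlt).ne

end Pool.Agent.Lib.MP_9a9339_an
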