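import Mathlib
import Pool.Agent.Lib.MP_9a9339_an.Core
import Pool.Agent.Lib.MP_9a9339_an.ProblemDefs

set_option autoImplicit false

open Set Filter Topology Metric InnerProductSpace Laplacian MeasureTheory
open scoped ContDiff

namespace Pool.Agent.Lib.MP_9a9339_an

/-- A function on `[0,∞)` which is Hölder on every `[0,R]` is continuous on `[0,∞)`. -/
theorem ExtendReact_continuousOn {γ : ℝ} (hγ : 0 < γ) {g : ℝ → ℝ}
    (hg : ∀ R : ℝ, ∃ C : ℝ, ∀ s ∈ Icc (0:ℝ) R, ∀ t ∈ Icc (0:ℝ) R, |g s - g t| ≤ C * |s - t| ^ γ) :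
    ContinuousOn g (Ici (0:ℝ)) := by
  intro t ht
  have ht0 : (0:ℝ) ≤ t := ht
  obtain ⟨C, hC⟩ := hg (t + 1)
  have hlim : Tendsto (fun s : ℝ => C * |s - t| ^ γ) (𝓝[Ici 0] t) (𝓝 0) := by
    have h1 : Tendsto (fun s : ℝ => |s - t|) (𝓝[Ici 0] t) (𝓝 0) := by
      have h2 : Continuous (fun s : ℝ => |s - t|) := by fun_prop
      have h3 := h2.tendsto t
      simp only [sub_self, abs_zero] at h3
      exact h3.mono_left nhdsWithin_le_nhds
    have h4 : Tendsto (fun s : ℝ => |s - t| ^ γ) (𝓝[Ici 0] t) (𝓝 ((0:ℝ) ^ γ)) :=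
      h1.rpow_const (Or.inr hγ.le)
    rw [Real.zero_rpow hγ.ne'] at h4
    simpa using h4.const_mul C
  show Tendsto g (𝓝[Ici 0] t) (𝓝 (g t))
  rw [tendsto_iff_dist_tendsto_zero]
  refine squeeze_zero' (Eventually.of_forall fun s => dist_nonneg) ?_ hlim
  have hlt : ∀ᶠ s in 𝓝[Ici 0] t, s < t + 1 :=
    mem_nhdsWithin_of_mem_nhds (Iio_mem_nhds (by linarith))
  filter_upwards [hlt, self_mem_nhdsWithin] with s hs hs0
  rw [Real.dist_eq]
  exact hC s ⟨hs0, hs.le⟩ t ⟨ht0, by linarith⟩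

/-- X19: a reaction extends to a `C^1` function on the real line. -/
theorem IsReaction.exists_extension {γ : ℝ} (hγ : 0 < γ) {f : ℝ → ℝ} (hf : IsReaction γ f) :
    ∃ F : ℝ → ℝ, ContDiff ℝ 1 F ∧ ∀ s, 0 ≤ s → F s = f s := by
  obtain ⟨f', hder, hhol⟩ := hf.smooth
  have hcont := ExtendReact_continuousOn hγ hhol
  set F : ℝ → ℝ := fun s => if 0 ≤ s then f s else f' 0 * s with hF
  have hFr : ∀ s, 0 ≤ s → F s = f s := fun s hs => by simp [hF, hs]
  have hFl : ∀ s, s ≤ 0 → F s = f' 0 * s := by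
    intro s hs
    rcases hs.lt_or_eq with h | h
    · simp [hF, not_le.mpr h]
    · subst h; simp [hF, hf.at_zero]
  have hD : ∀ s, HasDerivAt F (f' (max s 0)) s := by
    intro s
    rcases lt_trichotomy s 0 with h | h | h
    · rw [max_eq_right h.le]
      have h1 : HasDerivAt (fun s : ℝ => f' 0 * s) (f' 0) s := by
        simpa using (hasDerivAt_id s).const_mul (f' 0)
      refine h1.congr_of_eventuallyEq ?_
      filter_upwards [Iio_mem_nhds h] with t ht using hFl t (le_of_lt ht)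
    · subst h
      rw [max_self]
      have h1 : HasDerivWithinAt F (f' 0) (Iic 0) 0 := by
        have h2 : HasDerivWithinAt (fun s : ℝ => f' 0 * s) (f' 0) (Iic 0) 0 := by
          simpa using ((hasDerivAt_id (0:ℝ)).const_mul (f' 0)).hasDerivWithinAt
        exact h2.congr (fun t ht => hFl t ht) (hFl 0 le_rfl)
      have h3 : HasDerivWithinAt F (f' 0) (Ici 0) 0 :=
        (hder 0 (mem_Ici.mpr le_rfl)).congr (fun t ht => hFr t ht) (hFr 0 le_rfl)
      have h4 := h1.union h3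
      rwa [Iic_union_Ici, hasDerivWithinAt_univ] at h4
    · rw [max_eq_left h.le]
      have h1 : HasDerivAt f (f' s) s := (hder s h.le).hasDerivAt (Ici_mem_nhds h)
      refine h1.congr_of_eventuallyEq ?_
      filter_upwards [Ioi_mem_nhds h] with t ht using hFr t (le_of_lt ht)
  refine ⟨F, ?_, hFr⟩
  rw [contDiff_one_iff_deriv]
  refine ⟨fun s => (hD s).differentiableAt, ?_⟩
  have : deriv F = fun s => f' (max s 0) := funext fun s => (hD s).deriv
  rw [this]
  exact hcont.comp_continuous (by fun_prop) (fun s => le_max_right s 0)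

end Pool.Agent.Lib.MP_9a9339_an
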