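import Mathlib
import Pool.Agent.Lib.MP_9a9339_an.Modulus

set_option autoImplicit false

open Set Filter Topology Metric InnerProductSpace Laplacian MeasureTheory
open scoped ContDiff

namespace Pool.Agent.Lib.MP_9a9339_an

open Pool.Agent.Lib.MP_2166fc_an (Sp)

variable {n : ℕ}

lemma positivity_react_nonneg {f : ℝ → ℝ} {c L : ℝ} (hf : React f c L) {s : ℝ}
    (hs : s ∈ Icc (0:ℝ) 1) : 0 ≤ f s :=
  le_trans (mul_nonneg hf.c_pos.le (mul_nonneg hs.1 (sub_nonneg.2 hs.2))) (hf.lower s hs)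

/-- X18: strong maximum principle at the level `0`. -/
theorem pos_of_nonneg {Ω : Set (Sp n)} (hΩ : IsOpen Ω) (hc : IsPreconnected Ω) {f : ℝ → ℝ}
    {c L : ℝ} (hf : React f c L) {u : Sp n → ℝ} (h0 : ∀ x, 0 ≤ u x) (h1 : ∀ x, u x ≤ 1)
    (hu : ContDiffOn ℝ 2 u Ω) (he : ∀ x ∈ Ω, Δ u x = - f (u x)) {x₀ : Sp n} (hx₀ : x₀ ∈ Ω)
    (hpos : 0 < u x₀) : ∀ x ∈ Ω, 0 < u x := by
  have hP : IsOpen (Ω ∩ u ⁻¹' Ioi 0) := hu.continuousOn.isOpen_inter_preimage hΩ isOpen_Ioi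
  have hZ : IsOpen (Ω ∩ u ⁻¹' {0}) := by
    rw [Metric.isOpen_iff]
    rintro y ⟨hyΩ, hy0⟩
    rw [mem_preimage, mem_singleton_iff] at hy0
    obtain ⟨R, hR, hsub⟩ := Metric.isOpen_iff.1 hΩ y hyΩ
    obtain ⟨δ, hδ, hδR, hmod⟩ := modulus n (L := L) hf.L_pos.le hR one_pos
    refine ⟨δ, hδ, fun z hz => ⟨hsub (ball_subset_ball hδR.le hz), ?_⟩⟩
    have h := hmod u y (hu.mono hsub) (fun w _ => h0 w) (fun w hw => by
      rw [he w (hsub hw), abs_neg, abs_of_nonneg (positivity_react_nonneg hf ⟨h0 w, h1 w⟩)]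
      exact hf.upper0 _ ⟨h0 w, h1 w⟩) z (ball_subset_closedBall hz)
    rw [hy0, mul_zero, sub_zero] at h
    exact abs_nonpos_iff.1 h
  intro x hx
  by_contra hx0
  have hx0' : u x = 0 := le_antisymm (not_lt.1 hx0) (h0 x)
  obtain ⟨y, -, ⟨-, hy1⟩, ⟨-, hy2⟩⟩ := hc _ _ hP hZ (fun y hy => by
    rcases (h0 y).lt_or_eq with h | h
    · exact Or.inl ⟨hy, h⟩
    · exact Or.inr ⟨hy, h.symm⟩) ⟨x₀, hx₀, hx₀, hpos⟩ ⟨x, hx, hx, hx0'⟩
  rw [mem_preimage, mem_singleton_iff] at hy2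
  rw [mem_preimage, hy2, mem_Ioi] at hy1
  exact lt_irrefl _ hy1

end Pool.Agent.Lib.MP_9a9339_an
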