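import Mathlib
import Pool.Agent.Lib.MP_9a9339_an.Ex.MaxPrinciple
import Pool.Agent.Lib.MP_9a9339_an.Hair

set_option autoImplicit false

open Set Filter Topology Metric InnerProductSpace Laplacian MeasureTheory
open scoped ContDiff

namespace Pool.Agent.Lib.MP_9a9339_an

open Pool.Agent.Lib.MP_2166fc_an (Sp)

variable {n : ℕ}

lemma sub_mvi_zero (x : Sp n) (r : ℝ) : MVI (fun _ : Sp n => (0:ℝ)) (fun _ => 0) x r := by
  unfold MVI avg src
  simp

lemma sub_rhs_nonneg {f : ℝ → ℝ} {c L K : ℝ} (hf : React f c L) {χ v : Sp n → ℝ}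
    (hχ : Weight χ) (hK : 0 ≤ K) (y : Sp n) (h0 : 0 ≤ v y) (h1 : v y ≤ 1) :
    0 ≤ (L + K) * v y + pen f K χ v y := by
  have h2 := hf.lower (v y) ⟨h0, h1⟩
  have h3 : 0 ≤ c * (v y * (1 - v y)) :=
    mul_nonneg hf.c_pos.le (mul_nonneg h0 (sub_nonneg.2 h1))
  have h4 : K * χ y * v y ≤ K * v y := by
    apply mul_le_mul_of_nonneg_right _ h0
    exact mul_le_of_le_one_right hK (hχ.le_one y)
  have h5 := mul_nonneg hf.L_pos.le h0
  unfold pen
  nlinarith

/-- X13: the bump is a subsolution. -/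
theorem bump_penSub (n : ℕ) {f : ℝ → ℝ} {c L : ℝ} (hf : React f c L) (hfc : Continuous f) :
    ∃ R : ℝ, 0 < R ∧ ∀ (χ : Sp n → ℝ) (x₀ : Sp n) (K : ℝ), Weight χ → 0 ≤ K →
      (∀ y ∈ ball x₀ R, χ y = 0) → PenSub f L K χ (bump n x₀ R) := by
  have hc := hf.c_pos
  have hsc : 0 < Real.sqrt c := Real.sqrt_pos.mpr hc
  set R : ℝ := (n + 3) / Real.sqrt c with hR
  have hRpos : 0 < R := by positivity
  have hR2 : R ^ 2 * c = (n + 3) ^ 2 := by
    rw [hR, div_pow, Real.sq_sqrt hc.le]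
    field_simp
  have hR2pos : 0 < R ^ 2 := by positivity
  refine ⟨R, hRpos, ?_⟩
  intro χ x₀ K hχ hK hχ0 w hw hwb hm x
  have hM : 0 < L + K := by linarith [hf.L_pos]
  obtain ⟨C, hC⟩ := hwb
  have hvc : Continuous (bump n x₀ R) := by
    unfold bump
    fun_prop
  have hv0 : ∀ y, 0 ≤ bump n x₀ R y := fun y => by
    unfold bump
    positivity
  have hv12 : ∀ y, bump n x₀ R y ≤ 1 / 2 := by
    intro y
    have h0 : (0:ℝ) ≤ max (1 - ‖y - x₀‖ ^ 2 / R ^ 2) 0 := le_max_right _ _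
    have h1 : max (1 - ‖y - x₀‖ ^ 2 / R ^ 2) 0 ≤ 1 :=
      max_le (by have : 0 ≤ ‖y - x₀‖ ^ 2 / R ^ 2 := by positivity
                 linarith) zero_le_one
    unfold bump
    nlinarith
  have hvout : ∀ y, R ≤ ‖y - x₀‖ → bump n x₀ R y = 0 := by
    intro y hy
    have h1 : 1 ≤ ‖y - x₀‖ ^ 2 / R ^ 2 := by
      rw [one_le_div hR2pos]
      nlinarith
    unfold bump
    rw [max_eq_right (by linarith)]
    norm_num
  have hFc : Continuous fun y => (L + K) * bump n x₀ R y + pen f K χ (bump n x₀ R) y := by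
    have h1 := hχ.cont
    unfold pen
    fun_prop
  -- `w` is nonnegative
  have hw0 : ∀ y, 0 ≤ w y := by
    intro y
    refine mvi_comparison (M := L + K) hM (w₁ := fun _ => 0) (w₂ := w) (F₁ := fun _ => 0)
      (C := max C 0) continuous_const hw continuous_const hFc
      (fun x => by simp) (fun x => (hC x).trans (le_max_left _ _)) (fun x r _ => ?_) hm
      (fun x => sub_rhs_nonneg hf hχ hK x (hv0 x) ((hv12 x).trans (by norm_num))) y
    simpa using sub_mvi_zero (n := n) x r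
  by_contra hcon
  push Not at hcon
  have hxin : x ∈ closedBall x₀ R := by
    rw [mem_closedBall, dist_eq_norm]
    by_contra h
    push Not at h
    have h1 := hvout x h.le
    have h2 := hw0 x
    linarith
  have hcont : Continuous fun y => w y - bump n x₀ R y := hw.sub hvc
  obtain ⟨z, hz, hmin⟩ := (isCompact_closedBall x₀ R).exists_isMinOn ⟨x, hxin⟩ hcont.continuousOn
  have hz1 : w z < bump n x₀ R z := by
    have := hmin hxin
    simp only [mem_ofPred_eq] at this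
    linarith
  have hzin : z ∈ ball x₀ R := by
    rw [mem_ball, dist_eq_norm]
    by_contra h
    push Not at h
    have h1 := hvout z h
    have h2 := hw0 z
    linarith
  -- the smooth representative
  set φ : Sp n → ℝ := fun y => (1 - ‖y - x₀‖ ^ 2 / R ^ 2) ^ 2 with hφ
  have hφC : ContDiff ℝ 2 φ := by
    have : ContDiff ℝ 2 (fun z : Sp n => ‖z - x₀‖ ^ 2) :=
      (contDiff_id.sub contDiff_const).norm_sq ℝ
    exact (contDiff_const.sub (this.div_const _)).pow 2
  have hvφ : ∀ y ∈ ball x₀ R, bump n x₀ R y = φ y / 2 := by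
    intro y hy
    rw [mem_ball, dist_eq_norm] at hy
    have h1 : ‖y - x₀‖ ^ 2 / R ^ 2 < 1 := by
      rw [div_lt_one hR2pos]
      nlinarith [norm_nonneg (y - x₀)]
    unfold bump
    rw [max_eq_left (by linarith)]
  have hb2 : ContDiff ℝ 2 fun y => (-1 / 2 : ℝ) * φ y := contDiff_const.mul hφC
  have hlapb : ∀ y, Δ (fun y => (-1 / 2 : ℝ) * φ y) y = (-1 / 2 : ℝ) * Δ φ y := by
    intro y
    have := laplacian_smul (𝕜 := ℝ) (-1 / 2 : ℝ) (hφC.contDiffAt (x := y))
    simpa [Pi.smul_def] using this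
  have hloc : IsLocalMax (fun y => - w y - (-1 / 2 : ℝ) * φ y) z := by
    filter_upwards [isOpen_ball.mem_nhds hzin] with y hy
    have h1 := hmin (ball_subset_closedBall hy)
    simp only [mem_ofPred_eq] at h1
    rw [hvφ y hy, hvφ z hzin] at h1
    linarith
  have hopen : ∀ᶠ y in 𝓝 z, w y < bump n x₀ R y ∧ y ∈ ball x₀ R :=
    (hw.continuousAt.eventually_lt hvc.continuousAt hz1).and (isOpen_ball.mem_nhds hzin)
  obtain ⟨s, hs, hsb⟩ := Metric.eventually_nhds_iff_ball.1 hopen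
  have hgc : Continuous fun y => -(((L + K) * bump n x₀ R y + pen f K χ (bump n x₀ R) y) -
      (L + K) * w y) := (hFc.sub (continuous_const.mul hw)).neg
  refine not_isLocalMax_of_mvi hs hw.neg hgc (fun r hr _ => (hm z r hr).neg) hb2.contDiffOn
    (fun y hy => ?_) hloc
  obtain ⟨h1, h2⟩ := hsb y hy
  rw [hlapb y]
  have hpen : pen f K χ (bump n x₀ R) y = f (bump n x₀ R y) := by
    unfold pen
    rw [hχ0 y h2, mul_zero, zero_mul, sub_zero]
  rw [hpen]
  have hlφ := hair_lap x₀ y (R ^ 2)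
  rw [← hφ] at hlφ
  rw [hlφ]
  have hy' : ‖y - x₀‖ < R := by
    rw [← dist_eq_norm]; exact mem_ball.mp h2
  set v : ℝ := bump n x₀ R y with hv
  set q : ℝ := ‖y - x₀‖ ^ 2 with hq
  have hq0 : 0 ≤ q := by positivity
  have hqR : q < R ^ 2 := by
    rw [hq]; gcongr
  set τ : ℝ := 1 - q / R ^ 2 with hτ
  have hτ0 : 0 < τ := by
    rw [hτ, sub_pos, div_lt_one hR2pos]
    exact hqR
  have hτ1 : τ ≤ 1 := by
    rw [hτ]
    have : 0 ≤ q / R ^ 2 := by positivity
    linarith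
  have hqτ : q = R ^ 2 * (1 - τ) := by
    rw [hτ]; field_simp; ring
  have hvτ : v = τ ^ 2 / 2 := by
    rw [hv, hvφ y h2]
  have hv0' : 0 ≤ v := by rw [hvτ]; positivity
  have hv1' : v ≤ 1 / 2 := hv12 y
  have hfv : c / 2 * v ≤ f v := by
    have h3 := hf.lower v ⟨hv0', hv1'.trans (by norm_num)⟩
    nlinarith [mul_nonneg hc.le hv0']
  have h4 : 4 * q * (2 / (R ^ 2) ^ 2) = 8 * (1 - τ) / R ^ 2 := by
    rw [hqτ]; field_simp; ring
  rw [h4]
  have h5 : (-1 / 2 : ℝ) * (8 * (1 - τ) / R ^ 2 + 2 * n * (-(2 / R ^ 2) * τ)) =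
      ((2 * n + 4) * τ - 4) / R ^ 2 := by
    field_simp
    ring
  rw [h5]
  have h6 : ((2 * n + 4) * τ - 4) / R ^ 2 ≤ c / 2 * v := by
    rw [div_le_iff₀ hR2pos, hvτ]
    have h7 : c / 2 * (τ ^ 2 / 2) * R ^ 2 = (n + 3) ^ 2 * τ ^ 2 / 4 := by
      rw [← hR2]; ring
    rw [h7]
    have hn : (0:ℝ) ≤ n := Nat.cast_nonneg n
    nlinarith [sq_nonneg ((n + 3) * τ - 4), mul_pos hτ0 (by norm_num : (0:ℝ) < 4)]
  have h8 : 0 < (L + K) * (v - w y) := mul_pos hM (sub_pos.2 h1)
  linarith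

/-- X13: solutions with a larger penalisation are subsolutions. -/
theorem penSub_of_penSol {f : ℝ → ℝ} {c L : ℝ} (hf : React f c L) (hfc : Continuous f)
    {χ : Sp n → ℝ} (hχ : Weight χ) {K K' : ℝ} (hK : 0 ≤ K) (hKK : K ≤ K') {v : Sp n → ℝ}
    (hv : PenSol f K' χ v) : PenSub f L K χ v := by
  intro w hw hwb hm x
  obtain ⟨C, hC⟩ := hwb
  have hM : 0 < L + K := by linarith [hf.L_pos]
  have hvc := hv.cont
  have hχc := hχ.cont
  have hF : ∀ k : ℝ, Continuous fun y => (L + K) * v y + pen f k χ v y := by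
    intro k
    unfold pen
    fun_prop
  refine mvi_comparison hM hv.cont hw (hF K') (hF K) (C := max C 1)
    (fun y => ?_) (fun y => (hC y).trans (le_max_left _ _)) (fun y r hr => ?_) hm (fun y => ?_) x
  · rw [abs_of_nonneg (hv.nonneg y)]
    exact (hv.le_one y).trans (le_max_right _ _)
  · have h1 : (fun y => (L + K) * v y + pen f K' χ v y - (L + K) * v y) = pen f K' χ v := by
      funext y
      ring
    rw [h1]
    exact hv.mvi y r hr
  · unfold pen
    have h1 : K * χ y * v y ≤ K' * χ y * v y :=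
      mul_le_mul_of_nonneg_right (mul_le_mul_of_nonneg_right hKK (hχ.nonneg y)) (hv.nonneg y)
    linarith

end Pool.Agent.Lib.MP_9a9339_an
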