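import Mathlib
import Pool.Agent.Lib.MP_9a9339_an.Mg.G003
import Pool.Agent.Lib.MP_9a9339_an.Ex.Sub
import Pool.Agent.Lib.MP_9a9339_an.Ex.Boundary
import Pool.Agent.Lib.MP_9a9339_an.Ex.Positivity
import Pool.Agent.Lib.MP_9a9339_an.Ex.ExtendReact
import Pool.Agent.Lib.MP_9a9339_an.Ex.Equation
import Pool.Agent.Lib.MP_9a9339_an.Final

set_option autoImplicit false

open Set Filter Topology Metric InnerProductSpace Laplacian MeasureTheory
open scoped ContDiff

namespace Pool.Agent.Lib.MP_9a9339_an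

open Pool.Agent.Lib.MP_2166fc_an (Sp)

variable {n : ℕ}

lemma bump_mem (x₀ : Sp n) {R : ℝ} (hR : 0 < R) (y : Sp n) :
    0 ≤ bump n x₀ R y ∧ bump n x₀ R y ≤ 1 := by
  have h0 : (0:ℝ) ≤ max (1 - ‖y - x₀‖ ^ 2 / R ^ 2) 0 := le_max_right _ _
  have h1 : max (1 - ‖y - x₀‖ ^ 2 / R ^ 2) 0 ≤ 1 :=
    max_le (by have : 0 ≤ ‖y - x₀‖ ^ 2 / R ^ 2 := by positivity
               linarith) zero_le_one
  unfold bump
  constructor
  · positivity
  · nlinarith

/-- Existence for the normalised data. -/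
theorem exists_core {Ω : Set (Sp n)} {r₀ ρ : ℝ} (hΩ : Dom Ω r₀ ρ) (hc : IsPreconnected Ω)
    (hne : Ω.Nonempty) {F : ℝ → ℝ} {c L : ℝ} (hF : React F c L) (hF1 : ContDiff ℝ 1 F) :
    ∃ u : Sp n → ℝ, ContDiffOn ℝ 2 u Ω ∧ ContinuousOn u (closure Ω) ∧
      (∀ x ∈ Ω, Δ u x = - F (u x)) ∧ (∀ x ∈ frontier Ω, u x = 0) ∧ (∀ x ∈ Ω, 0 < u x) ∧
      ∀ x, u x ≤ 1 := by
  have hFc : Continuous F := hF1.continuous
  obtain ⟨χ, hχ, hχ0, hχpos⟩ := exists_weight (closure Ω) isClosed_closure
  have hχΩ : ∀ x ∈ Ω, χ x = 0 := fun x hx => hχ0 x (subset_closure hx)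
  choose U hU hUmax using fun k : ℕ => exists_penalised hF hFc hχ (K := (k:ℝ)) (Nat.cast_nonneg k)
  have hanti : Antitone U := by
    refine antitone_nat_of_succ_le fun k => ?_
    intro x
    refine hUmax k (U (k + 1)) (hU (k + 1)).cont
      (fun y => ⟨(hU (k + 1)).nonneg y, (hU (k + 1)).le_one y⟩) ?_ x
    refine penSub_of_penSol hF hFc hχ (Nat.cast_nonneg k) ?_ (hU (k + 1))
    exact_mod_cast Nat.le_succ k
  have hbdd : ∀ x, BddBelow (range fun k => U k x) := fun x =>
    ⟨0, by rintro _ ⟨k, rfl⟩; exact (hU k).nonneg x⟩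
  set u : Sp n → ℝ := fun x => ⨅ k, U k x with hu
  have htend : ∀ x, Tendsto (fun k => U k x) atTop (𝓝 (u x)) := fun x =>
    tendsto_atTop_ciInf (fun i j hij => hanti hij x) (hbdd x)
  have hu0 : ∀ x, 0 ≤ u x := fun x => le_ciInf fun k => (hU k).nonneg x
  have huU : ∀ k x, u x ≤ U k x := fun k x => ciInf_le (hbdd x) k
  have hu1 : ∀ x, u x ≤ 1 := fun x => (huU 0 x).trans ((hU 0).le_one x)
  have hum : Measurable u := Measurable.iInf fun k => (hU k).cont.measurable
  have hL := hF.L_pos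
  -- the mean value identity for the limit
  have hmvi : ∀ x ∈ Ω, ∀ r, 0 < r → closedBall x r ⊆ Ω → MVI u (fun y => F (u y)) x r := by
    intro x _ r hr hball
    refine mvi_of_tendsto (w := U) (g := fun k => pen F k χ (U k)) (C := max 1 L) hr
      (fun k => (hU k).cont.measurable) (fun k => ?_) (fun k y _ => ?_) (fun k y hy => ?_)
      (fun y _ => htend y) (fun y hy => ?_) (fun k => (hU k).mvi x r hr)
    · unfold pen
      have h1 := hχ.cont
      have h2 := (hU k).cont
      exact Continuous.measurable (by fun_prop)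
    · rw [abs_of_nonneg ((hU k).nonneg y)]
      exact ((hU k).le_one y).trans (le_max_left _ _)
    · have hmem : U k y ∈ Icc (0:ℝ) 1 := ⟨(hU k).nonneg y, (hU k).le_one y⟩
      unfold pen
      rw [hχΩ y (hball hy), mul_zero, zero_mul, sub_zero]
      have h1 := hF.lower _ hmem
      have h2 := hF.upper0 _ hmem
      have h3 : 0 ≤ c * (U k y * (1 - U k y)) :=
        mul_nonneg hF.c_pos.le (mul_nonneg hmem.1 (sub_nonneg.2 hmem.2))
      rw [abs_of_nonneg (h3.trans h1)]
      refine h2.trans ((mul_le_of_le_one_right hL.le hmem.2).trans (le_max_right _ _))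
    · have h1 : ∀ k : ℕ, pen F k χ (U k) y = F (U k y) := by
        intro k
        unfold pen
        rw [hχΩ y (hball hy), mul_zero, zero_mul, sub_zero]
      simp only [h1]
      exact (hFc.tendsto (u y)).comp (htend y)
  have hreg : ContDiffOn ℝ 2 u Ω :=
    regularity hΩ.isOpen hF1 hum (C := 1)
      (fun x => by rw [abs_of_nonneg (hu0 x)]; exact hu1 x) hmvi
  have heq : ∀ x ∈ Ω, Δ u x = - F (u x) :=
    laplacian_of_mvi hΩ.isOpen hreg (hFc.comp_continuousOn hreg.continuousOn) hmvi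
  -- boundary values
  have hbdry : ∀ p ∈ frontier Ω, u p = 0 ∧ ContinuousAt u p := by
    intro p hp
    obtain ⟨q, hpq, hdisj⟩ := hΩ.ext p hp ρ hΩ.ρ_pos le_rfl
    refine limit_boundary hF hFc hχ hU hu0 huU hΩ.ρ_pos hpq fun y hy => hχpos y ?_
    intro hycl
    rw [_root_.mem_closure_iff] at hycl
    obtain ⟨z, hz1, hz2⟩ := hycl (ball q ρ) isOpen_ball hy
    exact Set.disjoint_left.1 hdisj hz1 hz2
  have hcont : ContinuousOn u (closure Ω) := by
    intro x hx
    by_cases hxΩ : x ∈ Ω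
    · exact ((hreg.continuousOn).continuousAt (hΩ.isOpen.mem_nhds hxΩ)).continuousWithinAt
    · exact (hbdry x (frontier_eq_of_isOpen hΩ.isOpen hx hxΩ)).2.continuousWithinAt
  -- lower bound
  obtain ⟨R, hR, hbump⟩ := bump_penSub n hF hFc
  obtain ⟨x₀, hx₀⟩ := hΩ.exists_large_ball hne R
  have hx₀Ω : x₀ ∈ Ω := hx₀ (mem_closedBall_self hR.le)
  have hbc : Continuous (bump n x₀ R) := by
    unfold bump
    fun_prop
  have hlow : ∀ k x, bump n x₀ R x ≤ U k x := fun k =>
    hUmax k _ hbc (bump_mem x₀ hR) (hbump χ x₀ k hχ (Nat.cast_nonneg k)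
      fun y hy => hχΩ y (hx₀ (ball_subset_closedBall hy)))
  have hux₀ : 0 < u x₀ := by
    have h1 : bump n x₀ R x₀ = 1 / 2 := by
      unfold bump
      simp
    have h2 : bump n x₀ R x₀ ≤ u x₀ := le_ciInf fun k => hlow k x₀
    linarith
  exact ⟨u, hreg, hcont, heq, fun p hp => (hbdry p hp).1,
    pos_of_nonneg hΩ.isOpen hc hF hu0 hu1 hreg heq hx₀Ω hux₀, hu1⟩

variable {d : ℕ}

/-- Existence of a positive bounded solution. -/
theorem existence {γ : ℝ} (hγ : 0 < γ) {Ω : Set (E d)} (hΩ : IsUniformDomain γ Ω)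
    (hstar : StronglyExteriorStar Ω) {f : ℝ → ℝ} (hf : IsPositiveReaction γ f) :
    ∃ u : E d → ℝ, IsPositiveBoundedSolution Ω f u := by
  obtain ⟨c, L, hR⟩ := hf.exists_react hγ
  obtain ⟨F, hF1, hFf⟩ := hf.toIsReaction.exists_extension hγ
  have hFR : React F c L :=
    { c_pos := hR.c_pos
      L_pos := hR.L_pos
      lower := fun s hs => by rw [hFf s hs.1]; exact hR.lower s hs
      upper0 := fun s hs => by rw [hFf s hs.1]; exact hR.upper0 s hs
      upper1 := fun s hs => by rw [hFf s hs.1]; exact hR.upper1 s hs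
      lip := fun s hs t ht => by rw [hFf s hs.1, hFf t ht.1]; exact hR.lip s hs t ht }
  obtain ⟨b, r₀, ρ, hD⟩ := exists_dom hΩ hstar
  set Ω' : Set (E d) := (fun x => x + b) ⁻¹' Ω with hΩ'
  have hΩ'img : Ω' = (fun x => x - b) '' Ω := by
    ext x
    constructor
    · intro hx
      exact ⟨x + b, hx, by simp⟩
    · rintro ⟨y, hy, rfl⟩
      show y - b + b ∈ Ω
      rwa [sub_add_cancel]
  have hcon : IsPreconnected Ω' := by
    rw [hΩ'img]
    exact hΩ.isConnected.isPreconnected.image _ (by fun_prop)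
  have hne : Ω'.Nonempty := by
    rw [hΩ'img]
    exact hΩ.isConnected.nonempty.image _
  obtain ⟨u, hreg, hcont, heq, hbd, hpos, hle⟩ := exists_core hD hcon hne hFR hF1
  have hmem : ∀ x ∈ Ω, x - b ∈ Ω' := by
    intro x hx
    show x - b + b ∈ Ω
    rwa [sub_add_cancel]
  have hopen : IsOpen Ω' := hD.isOpen
  have hsub : ∀ x : E d, x - b = x + (-b) := fun x => sub_eq_add_neg x b
  refine ⟨fun x => u (x - b), ?_⟩
  refine
    { regular := ?_
      continuousOn := ?_
      eq := ?_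
      boundary := ?_
      pos := fun x hx => hpos _ (hmem x hx)
      bounded := ⟨1, fun x _ => hle _⟩ }
  · have h1 : ContDiffOn ℝ 2 (fun x : E d => x - b) Ω := by fun_prop
    exact hreg.comp h1 hmem
  · refine hcont.comp (by fun_prop) ?_
    intro x hx
    have h1 : (Homeomorph.addRight b) ⁻¹' closure Ω = closure ((Homeomorph.addRight b) ⁻¹' Ω) :=
      (Homeomorph.addRight b).preimage_closure Ω
    have h2 : x - b ∈ (Homeomorph.addRight b) ⁻¹' closure Ω := by
      show x - b + b ∈ closure Ω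
      rwa [sub_add_cancel]
    rw [h1] at h2
    exact h2
  · intro x hx
    have h1 : ContDiffAt ℝ 2 u (x + (-b)) := by
      rw [← hsub]
      exact hreg.contDiffAt (hopen.mem_nhds (hmem x hx))
    have h2 : Δ (fun y => u (y - b)) x = Δ u (x - b) := by
      have h3 : (fun y : E d => u (y - b)) = fun y => u (y + (-b)) := by
        funext y
        rw [hsub]
      rw [h3, lap_comp_add h1, hsub]
    rw [h2, heq _ (hmem x hx), neg_neg]
    exact hFf _ (hpos _ (hmem x hx)).le
  · intro x hx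
    refine hbd _ ?_
    have h1 : (Homeomorph.addRight b) ⁻¹' frontier Ω = frontier ((Homeomorph.addRight b) ⁻¹' Ω) :=
      (Homeomorph.addRight b).preimage_frontier Ω
    have h2 : x - b ∈ (Homeomorph.addRight b) ⁻¹' frontier Ω := by
      show x - b + b ∈ frontier Ω
      rwa [sub_add_cancel]
    rw [h1] at h2
    exact h2

/-- Exactly one positive bounded solution (unique up to its irrelevant values off the closure). -/
theorem exactly_one {γ : ℝ} (hγ : 0 < γ) {Ω : Set (E d)} (hΩ : IsUniformDomain γ Ω)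
    (hstar : StronglyExteriorStar Ω) {f : ℝ → ℝ} (hf : IsPositiveReaction γ f) :
    ∃ u : E d → ℝ, IsPositiveBoundedSolution Ω f u ∧
      ∀ v : E d → ℝ, IsPositiveBoundedSolution Ω f v → ∀ x ∈ closure Ω, v x = u x := by
  obtain ⟨u, hu⟩ := existence hγ hΩ hstar hf
  exact ⟨u, hu, fun v hv => uniqueness hγ hΩ hstar hf hv hu⟩

end Pool.Agent.Lib.MP_9a9339_an
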